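import Pool.Agent.H36.LIM.ALOG

/-!
# Row AG of the board lim_modules: the disc averages of the periodic kernel
-/

set_option autoImplicit false

open Complex MeasureTheory Set Filter Topology Metric

namespace Pool.Agent.H36.LIM

open Pool.Agent.H20.LIM Pool.Agent.H23.GLM Pool.Agent.H23.DZ

/-- the average of `log ‖k‖` for an entire function without zeros in the disc -/
theorem av_log_norm (hPOL : T_POL) (hLI : T_LI) {k : ℂ → ℂ} (hk : Differentiable ℂ k) (c : ℂ)
    {r : ℝ} (hr : 0 < r) (h0 : ∀ w ∈ closedBall c r, k w ≠ 0) :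
    av r (fun w => Real.log ‖k w‖) c = Real.log ‖k c‖ := by
  have hint : IntegrableOn (fun w : ℂ => Real.log ‖k w‖) (ball c r) :=
    integrableOn_ball (hLI k hk ⟨c, h0 c (mem_closedBall_self hr.le)⟩) c r
  rw [hPOL _ c r hr hint]
  have h1 : ∫ ρ in (0 : ℝ)..r, ρ * Real.circleAverage (fun w : ℂ => Real.log ‖k w‖) c ρ =
      ∫ ρ in (0 : ℝ)..r, ρ * Real.log ‖k c‖ := by
    apply intervalIntegral.integral_congr_ae
    refine ae_of_all _ fun ρ hρ => ?_
    rw [uIoc_of_le hr.le] at hρ
    have h2 : Real.circleAverage (fun w : ℂ => Real.log ‖k w‖) c ρ = Real.log ‖k c‖ := by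
      refine InnerProductSpace.HarmonicOnNhd.circleAverage_eq ?_
      intro z hz
      refine AnalyticAt.harmonicAt_log_norm (hk.analyticAt z) (h0 z ?_)
      rw [abs_of_pos hρ.1] at hz
      exact closedBall_subset_closedBall hρ.2 hz
    rw [h2]
  have hr2 : r ^ 2 ≠ 0 := by positivity
  rw [h1, integral_id_mul]
  field_simp

theorem pf_ag (hALOG : T_ALOG) (hPOL : T_POL) (hLI : T_LI) : T_AG := by
  intro P r c hP hr hrP hc him
  have hP' : (P : ℂ) ≠ 0 := by exact_mod_cast hP.ne'
  set θ : ℝ := 2 * Real.pi / P with hθ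
  have hθ0 : 0 < θ := by positivity
  have hθ' : (θ : ℂ) ≠ 0 := by exact_mod_cast hθ0.ne'
  set E : ℂ → ℂ := fun w => 1 - cexp (-(θ * w)) with hE
  have hEd : Differentiable ℂ E := by
    intro w
    fun_prop
  have hE0 : E 0 = 0 := by simp [hE]
  have hE' : deriv E 0 = θ := by
    have h1 : HasDerivAt E (θ : ℂ) 0 := by
      have h2 : HasDerivAt (fun w : ℂ => -((θ : ℂ) * w)) (-(θ : ℂ)) 0 := by
        have h4 := (hasDerivAt_id (0 : ℂ)).const_mul (-(θ : ℂ))
        rw [mul_one] at h4
        refine h4.congr_of_eventuallyEq (Eventually.of_forall fun w => ?_)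
        simp
      have h3 := (h2.cexp).const_sub 1
      refine h3.congr_deriv ?_
      simp
    exact h1.deriv
  set k : ℂ → ℂ := dslope E 0 with hk
  have hkd : Differentiable ℂ k := by
    have h1 := (Complex.differentiableOn_dslope (f := E) (c := 0) (s := univ) univ_mem).2
      hEd.differentiableOn
    exact differentiableOn_univ.1 h1
  have hEk : ∀ w, E w = w * k w := by
    intro w
    have h1 := sub_smul_dslope E 0 w
    rw [hE0, sub_zero, sub_zero, smul_eq_mul] at h1
    exact h1.symm
  have hk0 : ∀ w ∈ closedBall c r, k w ≠ 0 := by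
    intro w hw hkw
    have hEw : E w = 0 := by rw [hEk, hkw, mul_zero]
    have h1 : cexp (-(θ * w)) = 1 := (sub_eq_zero.1 hEw).symm
    obtain ⟨n, hn⟩ := Complex.exp_eq_one_iff.1 h1
    have hw' : w = -(n * P * I) := by
      have h2 : (θ : ℂ) * P = 2 * Real.pi := by
        rw [hθ]
        push_cast
        field_simp
      have h3 : (θ : ℂ) * w = (θ : ℂ) * (-(n * P * I)) := by
        have h4 : (θ : ℂ) * (-(n * P * I)) = -(n * (θ * P) * I) := by ring
        rw [h4, h2]
        have h5 : (θ : ℂ) * w = -(n * (2 * Real.pi * I)) := by rw [← hn]; ring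
        rw [h5]
        ring
      exact mul_left_cancel₀ hθ' h3
    have him2 : w.im = -(n * P) := by
      rw [hw']
      simp
    have h6 : |w.im| < P := by
      have h7 : |w.im - c.im| ≤ r := by
        have h8 := abs_im_le_norm (w - c)
        rw [sub_im] at h8
        exact h8.trans (by simpa [dist_eq] using hw)
      have h9 : |w.im| ≤ |w.im - c.im| + |c.im| := by
        have := abs_add_le (w.im - c.im) c.im
        rwa [sub_add_cancel] at this
      linarith
    have hn0 : n = 0 := by
      rw [him2, abs_neg, abs_mul, abs_of_pos hP] at h6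
      have h7 : |(n : ℝ)| < 1 := by
        by_contra h8
        rw [not_lt] at h8
        nlinarith
      have h8 : |n| < 1 := by exact_mod_cast h7
      exact Int.abs_lt_one_iff.1 h8
    have hw0 : w = 0 := by rw [hw', hn0]; simp
    rw [hw0, hk, dslope_same, hE'] at hkw
    exact hθ' hkw
  have hG : ∀ w, w ≠ 0 → w ∈ closedBall c r →
      G θ w = Real.log ‖w‖ + Real.log ‖k w‖ := by
    intro w hw hwb
    show Real.log ‖E w‖ = _
    rw [hEk w, norm_mul, Real.log_mul (norm_ne_zero_iff.2 hw) (norm_ne_zero_iff.2 (hk0 w hwb))]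
  have hi1 : IntegrableOn (fun w : ℂ => Real.log ‖w‖) (ball c r) :=
    integrableOn_ball (hLI id differentiable_id ⟨1, one_ne_zero⟩) c r
  have hi2 : IntegrableOn (fun w : ℂ => Real.log ‖k w‖) (ball c r) :=
    integrableOn_ball (hLI k hkd ⟨c, hk0 c (mem_closedBall_self hr.le)⟩) c r
  have hav : av r (G θ) c = av r (fun w => Real.log ‖w‖) c + av r (fun w => Real.log ‖k w‖) c := by
    unfold av
    rw [setAverage_eq, setAverage_eq, setAverage_eq, ← smul_add, ← integral_add hi1 hi2]
    congr 1
    apply integral_congr_ae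
    refine (ae_restrict_iff' measurableSet_ball).2 ?_
    have h0 : ∀ᵐ w : ℂ, w ≠ 0 := by
      have : (volume : Measure ℂ) {(0 : ℂ)} = 0 := measure_singleton 0
      rw [ae_iff]
      convert this using 2
      ext w
      simp
    filter_upwards [h0] with w hw hwb
    exact hG w hw (ball_subset_closedBall hwb)
  rw [hav, hALOG r c hr hc, av_log_norm hPOL hLI hkd c hr hk0,
    hG c hc (mem_closedBall_self hr.le)]
  ring

end Pool.Agent.H36.LIM
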