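import Pool.Agent.H20.LIM.Targets

/-!
# Row ALOG of the board lim_modules: the disc averages of the logarithm
-/

set_option autoImplicit false

open Complex MeasureTheory Set Filter Topology Metric

namespace Pool.Agent.H36.LIM

open Pool.Agent.H20.LIM Pool.Agent.H23.GLM Pool.Agent.H23.DZ

theorem integrableOn_ball {f : ℂ → ℝ} (hf : LocallyIntegrable f volume) (c : ℂ) (r : ℝ) :
    IntegrableOn f (ball c r) :=
  (hf.integrableOn_isCompact (isCompact_closedBall c r)).mono_set ball_subset_closedBall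

theorem integral_id_mul (r a : ℝ) : ∫ ρ in (0 : ℝ)..r, ρ * a = r ^ 2 / 2 * a := by
  rw [intervalIntegral.integral_mul_const, integral_id]
  ring

theorem pf_alog (hPOL : T_POL) (hLI : T_LI) : T_ALOG := by
  intro r c hr hc
  have hint : IntegrableOn (fun w : ℂ => Real.log ‖w‖) (ball c r) :=
    integrableOn_ball (hLI id differentiable_id ⟨1, one_ne_zero⟩) c r
  rw [hPOL _ c r hr hint]
  have hca : ∀ ρ : ℝ, 0 < ρ → Real.circleAverage (fun w : ℂ => Real.log ‖w‖) c ρ =
      Real.log ρ + Real.posLog (ρ⁻¹ * ‖c‖) := by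
    intro ρ hρ
    have h := circleAverage_log_norm_sub_const_eq_log_radius_add_posLog (a := 0) (c := c)
      (R := ρ) hρ.ne'
    simpa using h
  have hs : 0 < ‖c‖ := norm_pos_iff.2 hc
  have hbig : ∀ ρ : ℝ, 0 < ρ → ρ ≤ ‖c‖ →
      Real.circleAverage (fun w : ℂ => Real.log ‖w‖) c ρ = Real.log ‖c‖ := by
    intro ρ hρ hle
    rw [hca ρ hρ, Real.posLog_eq_log, Real.log_mul (inv_ne_zero hρ.ne') hs.ne', Real.log_inv]
    · ring
    · rw [abs_of_nonneg (by positivity), ← div_eq_inv_mul]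
      exact (one_le_div hρ).2 hle
  have hsmall : ∀ ρ : ℝ, ‖c‖ ≤ ρ →
      Real.circleAverage (fun w : ℂ => Real.log ‖w‖) c ρ = Real.log ρ := by
    intro ρ hle
    have hρ : 0 < ρ := lt_of_lt_of_le hs hle
    rw [hca ρ hρ, (Real.posLog_eq_zero_iff _).2, add_zero]
    rw [abs_of_nonneg (by positivity), ← div_eq_inv_mul]
    exact (div_le_one hρ).2 hle
  have hr2 : r ^ 2 ≠ 0 := by positivity
  rcases le_or_gt r ‖c‖ with h | h
  · have h1 : ∫ ρ in (0 : ℝ)..r, ρ * Real.circleAverage (fun w : ℂ => Real.log ‖w‖) c ρ =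
        ∫ ρ in (0 : ℝ)..r, ρ * Real.log ‖c‖ := by
      apply intervalIntegral.integral_congr_ae
      refine ae_of_all _ fun ρ hρ => ?_
      rw [uIoc_of_le hr.le] at hρ
      rw [hbig ρ hρ.1 (hρ.2.trans h)]
    rw [h1, integral_id_mul, kr, if_neg (not_lt.2 h)]
    field_simp
    ring
  · have hI1 : ∫ ρ in (0 : ℝ)..‖c‖, ρ * Real.circleAverage (fun w : ℂ => Real.log ‖w‖) c ρ =
        ‖c‖ ^ 2 / 2 * Real.log ‖c‖ := by
      rw [← integral_id_mul]
      apply intervalIntegral.integral_congr_ae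
      refine ae_of_all _ fun ρ hρ => ?_
      rw [uIoc_of_le hs.le] at hρ
      rw [hbig ρ hρ.1 hρ.2]
    have hcont : ContinuousOn (fun ρ : ℝ => ρ * Real.log ρ) (uIcc ‖c‖ r) :=
      Real.continuous_mul_log.continuousOn
    have hI2 : ∫ ρ in ‖c‖..r, ρ * Real.circleAverage (fun w : ℂ => Real.log ‖w‖) c ρ =
        (r ^ 2 / 2 * Real.log r - r ^ 2 / 4) - (‖c‖ ^ 2 / 2 * Real.log ‖c‖ - ‖c‖ ^ 2 / 4) := by
      have h1 : ∫ ρ in ‖c‖..r, ρ * Real.circleAverage (fun w : ℂ => Real.log ‖w‖) c ρ =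
          ∫ ρ in ‖c‖..r, ρ * Real.log ρ := by
        apply intervalIntegral.integral_congr_ae
        refine ae_of_all _ fun ρ hρ => ?_
        rw [uIoc_of_le h.le] at hρ
        rw [hsmall ρ hρ.1.le]
      rw [h1]
      have h2 := intervalIntegral.integral_eq_sub_of_hasDerivAt
        (f := fun ρ : ℝ => ρ ^ 2 / 2 * Real.log ρ - ρ ^ 2 / 4) (f' := fun ρ => ρ * Real.log ρ)
        (a := ‖c‖) (b := r) (fun ρ hρ => by
          rw [uIcc_of_le h.le] at hρ
          have hρ0 : ρ ≠ 0 := (lt_of_lt_of_le hs hρ.1).ne'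
          have e1 : HasDerivAt (fun ρ : ℝ => ρ ^ 2 / 2) ρ ρ := by
            have := (hasDerivAt_pow 2 ρ).div_const 2
            refine this.congr_deriv ?_
            norm_num
          have e2 : HasDerivAt (fun ρ : ℝ => ρ ^ 2 / 4) (ρ / 2) ρ := by
            have := (hasDerivAt_pow 2 ρ).div_const 4
            refine this.congr_deriv ?_
            norm_num
            ring
          have e3 := (e1.mul (Real.hasDerivAt_log hρ0)).sub e2
          refine e3.congr_deriv ?_
          field_simp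
          ring) (hcont.intervalIntegrable)
      exact h2
    have hIa : IntervalIntegrable
        (fun ρ => ρ * Real.circleAverage (fun w : ℂ => Real.log ‖w‖) c ρ) volume 0 ‖c‖ := by
      refine (intervalIntegrable_congr_ae (g := fun ρ : ℝ => ρ * Real.log ‖c‖) ?_).2
        (Continuous.intervalIntegrable (by fun_prop) _ _)
      rw [uIoc_of_le hs.le]
      refine (ae_restrict_iff' measurableSet_Ioc).2 (ae_of_all _ fun ρ hρ => ?_)
      show ρ * _ = ρ * _
      rw [hbig ρ hρ.1 hρ.2]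
    have hIb : IntervalIntegrable
        (fun ρ => ρ * Real.circleAverage (fun w : ℂ => Real.log ‖w‖) c ρ) volume ‖c‖ r := by
      refine (intervalIntegrable_congr_ae (g := fun ρ : ℝ => ρ * Real.log ρ) ?_).2
        hcont.intervalIntegrable
      rw [uIoc_of_le h.le]
      refine (ae_restrict_iff' measurableSet_Ioc).2 (ae_of_all _ fun ρ hρ => ?_)
      show ρ * _ = ρ * _
      rw [hsmall ρ hρ.1.le]
    rw [← intervalIntegral.integral_add_adjacent_intervals hIa hIb, hI1, hI2, kr, if_pos h,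
      Real.log_div hr.ne' hs.ne']
    have hpi : Real.pi ≠ 0 := Real.pi_ne_zero
    field_simp
    ring

end Pool.Agent.H36.LIM
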