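import Pool.Agent.H20.LIM.Targets

/-!
# Row GRD of the board lim_modules: a symmetric grid
-/

set_option autoImplicit false

open Complex MeasureTheory Set Filter Topology Metric

namespace Pool.Agent.H36.LIM

open Pool.Agent.H20.LIM Pool.Agent.H23.GLM Pool.Agent.H23.DZ

theorem ae_re_ne (x : ℝ) : ∀ᵐ z : ℂ, z.re ≠ x := by
  have h1 : (volume : Measure ℂ) (Complex.measurableEquivRealProd ⁻¹' ({x} ×ˢ univ)) = 0 := by
    rw [Complex.volume_preserving_equiv_real_prod.measure_preimage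
      ((measurableSet_singleton x).prod MeasurableSet.univ).nullMeasurableSet]
    rw [Measure.volume_eq_prod, Measure.prod_prod]
    simp
  rw [ae_iff]
  convert h1 using 2
  ext z
  simp [Complex.measurableEquivRealProd]

/-- the open/half-open box with corner `(x, y)` and sides `δ`, `η` -/
def bx (x y δ η : ℝ) : Set ℂ := {z | x < z.re ∧ z.re < x + δ ∧ y ≤ z.im ∧ z.im < y + η}

theorem measurableSet_bx (x y δ η : ℝ) : MeasurableSet (bx x y δ η) :=
  (measurableSet_lt measurable_const Complex.measurable_re).inter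
    ((measurableSet_lt Complex.measurable_re measurable_const).inter
      ((measurableSet_le measurable_const Complex.measurable_im).inter
        (measurableSet_lt Complex.measurable_im measurable_const)))

theorem pf_grd : T_GRD := by
  intro P b s hP hb hb1 hs
  obtain ⟨n, hn⟩ := exists_nat_gt ((b + P) / s)
  have hn0 : 0 < (n : ℝ) := lt_trans (by positivity) hn
  have hnN : 0 < n := by exact_mod_cast hn0
  set δ : ℝ := b / n with hδ
  set η : ℝ := P / n with hη
  have hδ0 : 0 < δ := by positivity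
  have hη0 : 0 < η := by positivity
  have hnδ : n * δ = b := by rw [hδ]; field_simp
  have hnη : n * η = P := by rw [hη]; field_simp
  have hδη : δ + η ≤ s := by
    have h1 : b + P < n * s := by rwa [div_lt_iff₀ hs] at hn
    have h2 : n * (δ + η) < n * s := by rw [mul_add, hnδ, hnη]; exact h1
    exact (lt_of_mul_lt_mul_left h2 hn0.le).le
  let e : Fin (2 * n) × Fin n ≃ Fin (2 * n * n) := finProdFinEquiv
  let X : Fin (2 * n) → ℝ := fun a => -b + a * δ
  let Y : Fin n → ℝ := fun j => j * η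
  have hXlo : ∀ a, -b ≤ X a := fun a => by
    have : 0 ≤ (a : ℝ) * δ := by positivity
    show -b ≤ -b + a * δ
    linarith
  have hXhi : ∀ a, X a + δ ≤ b := fun a => by
    have h1 : ((a : ℕ) : ℝ) + 1 ≤ 2 * n := by exact_mod_cast a.2
    have h2 : (((a : ℕ) : ℝ) + 1) * δ ≤ 2 * n * δ := by nlinarith
    show -b + a * δ + δ ≤ b
    nlinarith
  have hYlo : ∀ j, 0 ≤ Y j := fun j => by
    show (0 : ℝ) ≤ j * η
    positivity
  have hYhi : ∀ j, Y j + η ≤ P := fun j => by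
    have h1 : ((j : ℕ) : ℝ) + 1 ≤ n := by exact_mod_cast j.2
    have h2 : (((j : ℕ) : ℝ) + 1) * η ≤ n * η := by nlinarith
    show j * η + η ≤ P
    nlinarith
  have hrev : ∀ a : Fin (2 * n), X (Fin.rev a) = -(X a + δ) := by
    intro a
    have h1 : ((Fin.rev a : Fin (2 * n)) : ℕ) + ((a : ℕ) + 1) = 2 * n := by
      rw [Fin.val_rev]
      omega
    have h2 : (((Fin.rev a : Fin (2 * n)) : ℕ) : ℝ) + ((a : ℕ) + 1) = 2 * n := by exact_mod_cast h1
    show -b + _ * δ = -(-b + a * δ + δ)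
    have h3 : (((Fin.rev a : Fin (2 * n)) : ℕ) : ℝ) = 2 * n - (a + 1) := by linarith
    rw [h3]
    linarith [hnδ, show (2 * (n : ℝ) - (a + 1)) * δ = 2 * (n * δ) - (a + 1) * δ by ring]
  let τ₀ : Equiv.Perm (Fin (2 * n) × Fin n) := Equiv.prodCongr Fin.revPerm (Equiv.refl _)
  have hτ₀ : ∀ a j, τ₀ (a, j) = (Fin.rev a, j) := fun a j => rfl
  refine ⟨2 * n * n, fun i => bx (X (e.symm i).1) (Y (e.symm i).2) δ η,
    fun i => ⟨X (e.symm i).1 + δ / 2, Y (e.symm i).2 + η / 2⟩,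
    (e.symm.trans τ₀).trans e, ?_, ?_, ?_, ?_, ?_, ?_, ?_, ?_⟩
  · exact fun i => measurableSet_bx _ _ _ _
  · intro i i' hne
    rw [Set.disjoint_left]
    rintro z ⟨h1, h2, h3, h4⟩ ⟨g1, g2, g3, g4⟩
    apply hne
    apply e.symm.injective
    have lt1 : ∀ {m m' : ℕ} {t t' u : ℝ}, 0 < t → t' + m * t < u → u < t' + m' * t + t →
        m ≤ m' := by
      intro m m' t t' u ht q1 q2
      have q3 : (m : ℝ) * t < (m' + 1) * t := by linarith
      have q4 : (m : ℝ) < m' + 1 := lt_of_mul_lt_mul_right q3 ht.le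
      exact Nat.lt_succ_iff.1 (by exact_mod_cast q4)
    have lt2 : ∀ {m m' : ℕ} {t u : ℝ}, 0 < t → m * t ≤ u → u < m' * t + t → m ≤ m' := by
      intro m m' t u ht q1 q2
      have q3 : (m : ℝ) * t < (m' + 1) * t := by linarith
      have q4 : (m : ℝ) < m' + 1 := lt_of_mul_lt_mul_right q3 ht.le
      exact Nat.lt_succ_iff.1 (by exact_mod_cast q4)
    refine Prod.ext (Fin.ext (le_antisymm ?_ ?_)) (Fin.ext (le_antisymm ?_ ?_))
    · exact lt1 (t := δ) (t' := -b) hδ0 h1 g2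
    · exact lt1 (t := δ) (t' := -b) hδ0 g1 h2
    · exact lt2 (t := η) hη0 h3 g4
    · exact lt2 (t := η) hη0 g3 h4
  · rintro i z ⟨h1, h2, h3, h4⟩
    refine ⟨abs_le.2 ⟨?_, ?_⟩, ?_, ?_⟩
    · linarith [hXlo (e.symm i).1]
    · linarith [hXhi (e.symm i).1]
    · linarith [hYlo (e.symm i).2]
    · linarith [hYhi (e.symm i).2]
  · rintro i z ⟨h1, h2, h3, h4⟩
    refine ⟨abs_le.2 ⟨?_, ?_⟩, ?_⟩
    · linarith [hXlo (e.symm i).1]
    · linarith [hXhi (e.symm i).1]
    · refine (Complex.norm_le_abs_re_add_abs_im _).trans ?_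
      rw [sub_re, sub_im]
      have q1 : |z.re - (X (e.symm i).1 + δ / 2)| ≤ δ := abs_le.2 ⟨by linarith, by linarith⟩
      have q2 : |z.im - (Y (e.symm i).2 + η / 2)| ≤ η := abs_le.2 ⟨by linarith, by linarith⟩
      exact (add_le_add q1 q2).trans hδη
  · intro i
    show |X (e.symm i).1 + δ / 2| ≤ b
    exact abs_le.2 ⟨by linarith [hXlo (e.symm i).1], by linarith [hXhi (e.symm i).1]⟩
  · have h0 : ∀ᵐ z : ℂ, ∀ k : ℕ, z.re ≠ -b + k * δ := ae_all_iff.2 fun k => ae_re_ne _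
    filter_upwards [h0] with z hz hzc hzb
    obtain ⟨-, hi0, hiP⟩ := hzc
    obtain ⟨hz1, hz2⟩ := abs_lt.1 hzb
    have hu : 0 ≤ (z.re + b) / δ := by
      apply div_nonneg _ hδ0.le
      linarith
    have hv : 0 ≤ z.im / η := div_nonneg hi0 hη0.le
    have ha1 := Nat.floor_le hu
    have ha2 := Nat.lt_floor_add_one ((z.re + b) / δ)
    have hj1 := Nat.floor_le hv
    have hj2 := Nat.lt_floor_add_one (z.im / η)
    rw [le_div_iff₀ hδ0] at ha1
    rw [div_lt_iff₀ hδ0] at ha2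
    rw [le_div_iff₀ hη0] at hj1
    rw [div_lt_iff₀ hη0] at hj2
    have haN : ⌊(z.re + b) / δ⌋₊ < 2 * n := by
      have q1 : (⌊(z.re + b) / δ⌋₊ : ℝ) * δ < 2 * n * δ := by
        have : 2 * (n : ℝ) * δ = 2 * b := by rw [mul_assoc, hnδ]
        linarith
      have q2 := lt_of_mul_lt_mul_right q1 hδ0.le
      exact_mod_cast q2
    have hjN : ⌊z.im / η⌋₊ < n := by
      have q1 : (⌊z.im / η⌋₊ : ℝ) * η < n * η := by rw [hnη]; linarith
      have q2 := lt_of_mul_lt_mul_right q1 hη0.le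
      exact_mod_cast q2
    refine ⟨e (⟨_, haN⟩, ⟨_, hjN⟩), ?_⟩
    show z ∈ bx (X (e.symm (e (⟨_, haN⟩, ⟨_, hjN⟩))).1) (Y (e.symm (e (⟨_, haN⟩, ⟨_, hjN⟩))).2) δ η
    rw [e.symm_apply_apply]
    refine ⟨?_, ?_, ?_, ?_⟩
    · show -b + (⌊(z.re + b) / δ⌋₊ : ℝ) * δ < z.re
      refine lt_of_le_of_ne (by linarith) fun q => hz _ q.symm
    · show z.re < -b + (⌊(z.re + b) / δ⌋₊ : ℝ) * δ + δ
      linarith
    · show (⌊z.im / η⌋₊ : ℝ) * η ≤ z.im
      exact hj1
    · show z.im < (⌊z.im / η⌋₊ : ℝ) * η + η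
      linarith
  · intro i
    have h1 : e.symm (((e.symm.trans τ₀).trans e) i) = (Fin.rev (e.symm i).1, (e.symm i).2) := by
      show e.symm (e (τ₀ (e.symm i))) = _
      rw [e.symm_apply_apply]
      rfl
    show (⟨X (e.symm (((e.symm.trans τ₀).trans e) i)).1 + δ / 2, _⟩ : ℂ) = _
    rw [h1]
    apply Complex.ext
    · rw [neg_re, conj_re]
      show X (Fin.rev (e.symm i).1) + δ / 2 = -(X (e.symm i).1 + δ / 2)
      rw [hrev]
      ring
    · rw [neg_im, conj_im, neg_neg]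
  · intro i
    have h1 : e.symm (((e.symm.trans τ₀).trans e) i) = (Fin.rev (e.symm i).1, (e.symm i).2) := by
      show e.symm (e (τ₀ (e.symm i))) = _
      rw [e.symm_apply_apply]
      rfl
    show bx (X (e.symm (((e.symm.trans τ₀).trans e) i)).1) _ δ η = _
    rw [h1]
    ext z
    show (X (Fin.rev (e.symm i).1) < z.re ∧ z.re < X (Fin.rev (e.symm i).1) + δ ∧ _ ∧ _) ↔
      X (e.symm i).1 < (-(starRingEnd ℂ) z).re ∧ (-(starRingEnd ℂ) z).re < X (e.symm i).1 + δ ∧
        Y (e.symm i).2 ≤ (-(starRingEnd ℂ) z).im ∧ (-(starRingEnd ℂ) z).im < Y (e.symm i).2 + η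
    rw [neg_re, conj_re, neg_im, conj_im, neg_neg, hrev]
    constructor
    · rintro ⟨a, b, c, d⟩
      exact ⟨by linarith, by linarith, c, d⟩
    · rintro ⟨a, b, c, d⟩
      exact ⟨by linarith, by linarith, c, d⟩

end Pool.Agent.H36.LIM
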