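import Pool.Agent.H20.LIM.Targets

/-!
# Row STR of the board lim_modules: translations of a periodic function on a strip
-/

set_option autoImplicit false

open Complex MeasureTheory Set Filter Topology Metric

namespace Pool.Agent.H36.LIM

open Pool.Agent.H20.LIM Pool.Agent.H23.GLM Pool.Agent.H23.DZ

/-- the translated strip `t ≤ Im z < t + P` -/
def tstrip (P t : ℝ) : Set ℂ := {z | t ≤ z.im ∧ z.im < t + P}

theorem measurableSet_tstrip (P t : ℝ) : MeasurableSet (tstrip P t) :=
  (measurableSet_le measurable_const Complex.measurable_im).inter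
    (measurableSet_lt Complex.measurable_im measurable_const)

theorem isAddFundamentalDomain_tstrip {P : ℝ} (hP : 0 < P) (t : ℝ) :
    IsAddFundamentalDomain (AddSubgroup.zmultiples ((P : ℂ) * I)) (tstrip P t) volume := by
  refine IsAddFundamentalDomain.mk' (measurableSet_tstrip P t).nullMeasurableSet fun z => ?_
  obtain ⟨n, hn, hu⟩ := existsUnique_add_zsmul_mem_Ico hP z.im t
  have key : ∀ m : ℤ, (m • ((P : ℂ) * I)) +ᵥ z ∈ tstrip P t ↔ z.im + m • P ∈ Ico t (t + P) := by
    intro m
    have h1 : ((m • ((P : ℂ) * I)) +ᵥ z).im = z.im + m • P := by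
      rw [vadd_eq_add, add_im, zsmul_eq_mul, zsmul_eq_mul]
      simp [add_comm]
    show t ≤ _ ∧ _ < t + P ↔ _
    rw [h1]
    rfl
  refine ⟨⟨n • ((P : ℂ) * I), n, rfl⟩, (key n).2 hn, ?_⟩
  rintro ⟨_, m, rfl⟩ hm
  have h1 := hu m ((key m).1 hm)
  rw [h1]

theorem pf_str : T_STR := by
  intro P f hP hf hi h
  have hinv : ∀ (g : AddSubgroup.zmultiples ((P : ℂ) * I)) (z : ℂ), f (g +ᵥ z) = f z := by
    rintro ⟨_, n, rfl⟩ z
    have h1 : ∀ m : ℕ, ∀ z : ℂ, f (z + m * (P * I)) = f z := by
      intro m
      induction m with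
      | zero => intro z; simp
      | succ m ih =>
        intro z
        have h2 : z + ((m + 1 : ℕ) : ℂ) * (P * I) = (z + m * (P * I)) + P * I := by
          push_cast
          ring
        rw [h2, hf, ih]
    show f (n • ((P : ℂ) * I) + z) = f z
    rw [zsmul_eq_mul, add_comm]
    obtain ⟨m, rfl | rfl⟩ := n.eq_nat_or_neg
    · exact_mod_cast h1 m z
    · have h2 := h1 m (z + ((-(m : ℤ) : ℤ) : ℂ) * (P * I))
      rw [← h2]
      congr 1
      push_cast
      ring
  have h0 := isAddFundamentalDomain_tstrip hP 0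
  have h1 := isAddFundamentalDomain_tstrip hP h.im
  have e0 : tstrip P 0 = strip P := by
    ext z
    simp [tstrip, strip]
  rw [e0] at h0
  have hi1 : IntegrableOn f (tstrip P h.im) volume := (h0.integrableOn_iff h1 hinv).1 hi
  have hpre : (fun z : ℂ => z + h) ⁻¹' tstrip P h.im = strip P := by
    ext z
    simp only [tstrip, strip, mem_preimage, Set.mem_ofPred_eq, add_im]
    constructor
    · rintro ⟨a, b⟩
      exact ⟨by linarith, by linarith⟩
    · rintro ⟨a, b⟩
      exact ⟨by linarith, by linarith⟩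
  have hmp := measurePreserving_add_right (volume : Measure ℂ) h
  have hme : MeasurableEmbedding (fun z : ℂ => z + h) := measurableEmbedding_addRight h
  constructor
  · have h2 := (hmp.integrableOn_comp_preimage hme (f := f) (s := tstrip P h.im)).2 hi1
    rw [hpre] at h2
    exact h2
  · rw [← hpre, hmp.setIntegral_preimage_emb hme f (tstrip P h.im), hpre,
      h0.setIntegral_eq h1 hinv]

end Pool.Agent.H36.LIM
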